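import Pool.Agent.SSF.StmtsB

/-!
# SSF, row TDX: homogeneous spaces of profinite groups are totally disconnected
-/

set_option autoImplicit false

open Set Topology

namespace Pool.Agent.SSF.H70

open Pool.Agent.LSG Pool.Agent.LPR Pool.Agent.SSF Pool.Agent.CMG

theorem tdx : TdxStmt := by
  intro Q X _ _ _ _ _ _ _ _ _ _ htr
  suffices h : TotallySeparatedSpace X from inferInstance
  rw [totallySeparatedSpace_iff_exists_isClopen]
  intro x y hxy
  have hcx : Continuous fun g : Q => g • x := continuous_id.smul continuous_const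
  have hU : IsOpen {g : Q | g • x ≠ y} := isOpen_ne.preimage hcx
  have h1 : (1 : Q) ∈ {g : Q | g • x ≠ y} := by
    show (1 : Q) • x ≠ y
    rw [one_smul]
    exact hxy
  obtain ⟨C, hC, h1C, hCU⟩ := compact_exists_isClopen_in_isOpen hU h1
  obtain ⟨V, hV⟩ := IsTopologicalGroup.exist_openSubgroup_sub_clopen_nhds_of_one hC h1C
  have hVopen : IsOpen (V : Set Q) := V.isOpen
  have hVclosed : IsClosed (V : Set Q) := V.isClosed
  let O : Set X := (fun g : Q => g • x) '' (V : Set Q)
  have hOclosed : IsClosed O := (hVclosed.isCompact.image hcx).isClosed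
  have hquot : IsQuotientMap fun g : Q => g • x :=
    hcx.isClosedMap.isQuotientMap hcx fun z => htr x z
  have hOopen : IsOpen O := by
    rw [← hquot.isOpen_preimage, isOpen_iff_mem_nhds]
    rintro g ⟨v, hv, hvg⟩
    have h2 : {g' : Q | g' * g⁻¹ ∈ (V : Set Q)} ∈ 𝓝 g := by
      have hc : Continuous fun g' : Q => g' * g⁻¹ := continuous_id.mul continuous_const
      refine (hVopen.preimage hc).mem_nhds ?_
      show g * g⁻¹ ∈ (V : Set Q)
      rw [mul_inv_cancel]
      exact V.one_mem
    refine Filter.mem_of_superset h2 ?_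
    intro g' hg'
    refine ⟨(g' * g⁻¹) * v, V.mul_mem hg' hv, ?_⟩
    show ((g' * g⁻¹) * v) • x = g' • x
    have h3 : v • x = g • x := hvg
    rw [mul_smul, h3, ← mul_smul, inv_mul_cancel_right]
  refine ⟨O, ⟨hOclosed, hOopen⟩, ⟨1, V.one_mem, one_smul Q x⟩, ?_⟩
  rintro ⟨v, hv, hvy⟩
  exact hCU (hV hv) hvy

end Pool.Agent.SSF.H70

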