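import Pool.Agent.SSF.Stmts

/-!
# SSF, row BAM: finite partitions of unity of `M` at all scales
-/

set_option autoImplicit false

open Set Topology

namespace Pool.Agent.SSF.H70

open Pool.Agent.LSG Pool.Agent.LPR Pool.Agent.SSF

theorem bam_one (M : Type) [MetricSpace M] [CompactSpace M] [Nonempty M] (r : ℝ) (hr : 0 < r) :
    ∃ (K : ℕ) (c : ℕ → M) (B B' : ℕ → C(M, ℝ)), (∀ k t, 0 ≤ B k t) ∧
      (∀ k t, 0 ≤ B' k t ∧ B' k t ≤ 1) ∧ (∀ k t, B k t ≠ 0 → B' k t = 1) ∧
      (∀ k t, B' k t ≠ 0 → k < K ∧ dist t (c k) < 2 * r) ∧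
      ∀ t, ∑ k ∈ Finset.range K, B k t = 1 := by
  classical
  obtain ⟨T, hT⟩ : ∃ T : Finset M, ∀ x : M, ∃ y ∈ T, dist x y < r := by
    obtain ⟨t, _, ht, hcov⟩ := finite_cover_balls_of_compact (isCompact_univ (X := M)) hr
    refine ⟨ht.toFinset, fun x => ?_⟩
    have hx := hcov (Set.mem_univ x)
    rw [Set.mem_iUnion₂] at hx
    obtain ⟨y, hy, hxy⟩ := hx
    exact ⟨y, ht.mem_toFinset.2 hy, Metric.mem_ball.1 hxy⟩
  let e : Fin T.card ≃ T := T.equivFin.symm
  let c : ℕ → M := fun k => if h : k < T.card then (e ⟨k, h⟩ : M) else Classical.arbitrary M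
  have hc : ∀ x : M, ∃ k, k < T.card ∧ dist x (c k) < r := by
    intro x
    obtain ⟨y, hy, hxy⟩ := hT x
    refine ⟨e.symm ⟨y, hy⟩, (e.symm ⟨y, hy⟩).2, ?_⟩
    have h1 : c (e.symm ⟨y, hy⟩) = y := by
      have h2 : ((e.symm ⟨y, hy⟩ : Fin T.card) : ℕ) < T.card := (e.symm ⟨y, hy⟩).2
      show (if h : ((e.symm ⟨y, hy⟩ : Fin T.card) : ℕ) < T.card then
        (e ⟨(e.symm ⟨y, hy⟩ : Fin T.card), h⟩ : M) else Classical.arbitrary M) = y
      rw [dif_pos h2]
      have h3 : (⟨((e.symm ⟨y, hy⟩ : Fin T.card) : ℕ), h2⟩ : Fin T.card) = e.symm ⟨y, hy⟩ := rfl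
      rw [h3, Equiv.apply_symm_apply]
    rw [h1]
    exact hxy
  let b : ℕ → M → ℝ := fun k t => if k < T.card then max 0 (r - dist t (c k)) else 0
  have hbc : ∀ k, Continuous (b k) := by
    intro k
    by_cases hk : k < T.card
    · have : b k = fun t => max 0 (r - dist t (c k)) := by
        funext t
        exact if_pos hk
      rw [this]
      fun_prop
    · have : b k = fun _ => 0 := by
        funext t
        exact if_neg hk
      rw [this]
      exact continuous_const
  have hb0 : ∀ k t, 0 ≤ b k t := by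
    intro k t
    show 0 ≤ (if k < T.card then max 0 (r - dist t (c k)) else 0)
    split_ifs
    · exact le_max_left _ _
    · exact le_rfl
  have hbn : ∀ k t, b k t ≠ 0 → k < T.card ∧ dist t (c k) < r := by
    intro k t h
    by_cases hk : k < T.card
    · refine ⟨hk, ?_⟩
      by_contra hge
      push Not at hge
      apply h
      show (if k < T.card then max 0 (r - dist t (c k)) else 0) = 0
      rw [if_pos hk, max_eq_left]
      linarith
    · exact absurd (if_neg hk) h
  let s : M → ℝ := fun t => ∑ k ∈ Finset.range T.card, b k t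
  have hsc : Continuous s := continuous_finset_sum _ fun k _ => hbc k
  have hs : ∀ t, 0 < s t := by
    intro t
    obtain ⟨k, hk, hd⟩ := hc t
    refine Finset.sum_pos' (fun k _ => hb0 k t) ⟨k, Finset.mem_range.2 hk, ?_⟩
    show 0 < (if k < T.card then max 0 (r - dist t (c k)) else 0)
    rw [if_pos hk]
    exact lt_max_of_lt_right (by linarith)
  let B : ℕ → C(M, ℝ) := fun k => ⟨fun t => b k t / s t, (hbc k).div hsc fun t => (hs t).ne'⟩
  let b' : ℕ → M → ℝ := fun k t =>
    if k < T.card then max 0 (min 1 (2 - dist t (c k) / r)) else 0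
  have hbc' : ∀ k, Continuous (b' k) := by
    intro k
    by_cases hk : k < T.card
    · have : b' k = fun t => max 0 (min 1 (2 - dist t (c k) / r)) := by
        funext t
        exact if_pos hk
      rw [this]
      fun_prop
    · have : b' k = fun _ => 0 := by
        funext t
        exact if_neg hk
      rw [this]
      exact continuous_const
  let B' : ℕ → C(M, ℝ) := fun k => ⟨b' k, hbc' k⟩
  have hB'def : ∀ k t, B' k t = b' k t := fun _ _ => rfl
  have hBdef : ∀ k t, B k t = b k t / s t := fun _ _ => rfl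
  have hb'def : ∀ k t, b' k t = if k < T.card then max 0 (min 1 (2 - dist t (c k) / r)) else 0 :=
    fun _ _ => rfl
  refine ⟨T.card, c, B, B', ?_, ?_, ?_, ?_, ?_⟩
  · intro k t
    rw [hBdef]
    exact div_nonneg (hb0 k t) (hs t).le
  · intro k t
    rw [hB'def, hb'def]
    split_ifs
    · exact ⟨le_max_left _ _, max_le zero_le_one (min_le_left _ _)⟩
    · exact ⟨le_rfl, zero_le_one⟩
  · intro k t h
    rw [hBdef] at h
    have h1 : b k t ≠ 0 := by
      intro h0
      rw [h0, zero_div] at h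
      exact h rfl
    obtain ⟨hk, hd⟩ := hbn k t h1
    rw [hB'def, hb'def, if_pos hk]
    have h2 : dist t (c k) / r < 1 := (div_lt_one hr).2 hd
    rw [min_eq_left (by linarith), max_eq_right zero_le_one]
  · intro k t h
    rw [hB'def, hb'def] at h
    by_cases hk : k < T.card
    · refine ⟨hk, ?_⟩
      rw [if_pos hk] at h
      by_contra hge
      push Not at hge
      apply h
      have h2 : 2 ≤ dist t (c k) / r := (le_div_iff₀ hr).2 hge
      rw [max_eq_left]
      exact (min_le_right _ _).trans (by linarith)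
    · rw [if_neg hk] at h
      exact absurd rfl h
  · intro t
    have h1 : ∀ k ∈ Finset.range T.card, B k t = b k t / s t := fun k _ => hBdef k t
    rw [Finset.sum_congr rfl h1, ← Finset.sum_div]
    exact div_self (hs t).ne'

theorem bam : BamStmt := by
  intro M _ _ _
  have h : ∀ m : ℕ, ∃ (K : ℕ) (c : ℕ → M) (B B' : ℕ → C(M, ℝ)), (∀ k t, 0 ≤ B k t) ∧
      (∀ k t, 0 ≤ B' k t ∧ B' k t ≤ 1) ∧ (∀ k t, B k t ≠ 0 → B' k t = 1) ∧
      (∀ k t, B' k t ≠ 0 → k < K ∧ dist t (c k) < 2 * (1 / 2 : ℝ) ^ (m + 7)) ∧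
      ∀ t, ∑ k ∈ Finset.range K, B k t = 1 := fun m => bam_one M _ (by positivity)
  choose K c B B' h1 h2 h3 h4 h5 using h
  refine ⟨K, c, B, B', h1, h2, h3, ?_, h5⟩
  intro m k t hne
  obtain ⟨h6, h7⟩ := h4 m k t hne
  refine ⟨h6, h7.trans ?_⟩
  have e : (2 : ℝ) * (1 / 2 : ℝ) ^ (m + 7) = (1 / 2 : ℝ) ^ (m + 5) / 2 := by
    rw [pow_add, pow_add]
    norm_num
    ring
  rw [e]
  have hp : (0 : ℝ) < (1 / 2 : ℝ) ^ (m + 5) := by positivity
  linarith

end Pool.Agent.SSF.H70

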